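import Pool.Agent.H144.TS.Stm

/-!
# Project TS (helper144), part TENF: frames, passing to the quadratic extension (helper404)
-/

set_option autoImplicit false

namespace Pool.Agent.H404.TS144

open Finset
open Pool.Agent.H144.TS

section ext

variable {F K Ω : Type} [Field F] [Field K] [Algebra F K]

/-- extension of scalars of a code -/
def extC (F K : Type) {Ω : Type} [Field F] [Field K] [Algebra F K] (C : Submodule F (Ω → F)) :
    Submodule K (Ω → K) :=
  Submodule.span K ((fun c : Ω → F => fun x => algebraMap F K (c x)) '' (C : Set (Ω → F)))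

theorem extC_comp (C : Submodule F (Ω → F)) (f : Ω → Ω)
    (hC : ∀ c ∈ C, (fun x => c (f x)) ∈ C) : ∀ c ∈ extC F K C, (fun x => c (f x)) ∈ extC F K C := by
  have h : extC F K C ≤ (extC F K C).comap (LinearMap.funLeft K K f) := by
    unfold extC
    rw [Submodule.span_le]
    rintro _ ⟨c, hc, rfl⟩
    rw [SetLike.mem_coe, Submodule.mem_comap]
    exact Submodule.subset_span ⟨fun x => c (f x), hC c hc, rfl⟩
  intro c hc
  exact h hc

/-- the functions `u` with `φ ∘ u ∈ C` for all functionals `φ` -/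
def dn (F K : Type) {Ω : Type} [Field F] [Field K] [Algebra F K] (C : Submodule F (Ω → F)) :
    Submodule K (Ω → K) where
  carrier := {u | ∀ φ : K →ₗ[F] F, (fun x => φ (u x)) ∈ C}
  add_mem' := by
    intro u v hu hv φ
    have h : (fun x => φ ((u + v) x)) = (fun x => φ (u x)) + fun x => φ (v x) := by
      funext x
      simp
    rw [h]
    exact C.add_mem (hu φ) (hv φ)
  zero_mem' := by
    intro φ
    have h : (fun x : Ω => φ ((0 : Ω → K) x)) = 0 := by
      funext x
      simp
    rw [h]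
    exact C.zero_mem
  smul_mem' := by
    intro a u hu φ
    exact hu (φ.comp (LinearMap.mulLeft F a))

theorem extC_le_dn (C : Submodule F (Ω → F)) : extC F K C ≤ dn F K C := by
  unfold extC
  rw [Submodule.span_le]
  rintro _ ⟨c, hc, rfl⟩ φ
  have h1 : (fun x => φ (algebraMap F K (c x))) = φ 1 • c := by
    funext x
    rw [Algebra.algebraMap_eq_smul_one, map_smul, Pi.smul_apply, smul_eq_mul, smul_eq_mul, mul_comm]
  show (fun x => φ (algebraMap F K (c x))) ∈ C
  rw [h1]
  exact C.smul_mem _ hc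

theorem inv_le (S : Finset ℕ) (T : (p : ℕ) → ZMod p → Ω → Ω) :
    (⨆ p ∈ S, InvT K T p) ≤ dn F K (⨆ p ∈ S, InvT F T p) := by
  refine iSup₂_le fun p hp u hu φ => ?_
  have h : (fun x => φ (u x)) ∈ InvT F T p := by
    intro b x
    show φ (u (T p b x)) = φ (u x)
    rw [hu b x]
  exact (le_iSup₂ (f := fun p (_ : p ∈ S) => InvT F T p) p hp) h

theorem exists_one (F K : Type) [Field F] [Field K] [Algebra F K] : ∃ φ : K →ₗ[F] F, φ 1 = 1 := by
  obtain ⟨φ, hφ⟩ : ∃ φ : K →ₗ[F] F, φ 1 ≠ 0 := by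
    by_contra h
    push Not at h
    exact one_ne_zero ((Module.forall_dual_apply_eq_zero_iff F (1 : K)).1 h)
  refine ⟨(φ 1)⁻¹ • φ, ?_⟩
  rw [LinearMap.smul_apply, smul_eq_mul, inv_mul_cancel₀ hφ]

theorem not_le (S : Finset ℕ) (T : (p : ℕ) → ZMod p → Ω → Ω) (C : Submodule F (Ω → F))
    (h : ¬ C ≤ ⨆ p ∈ S, InvT F T p) : ¬ extC F K C ≤ ⨆ p ∈ S, InvT K T p := by
  intro hle
  apply h
  intro c hc
  obtain ⟨φ, hφ⟩ := exists_one F K
  have h1 : (fun x => algebraMap F K (c x)) ∈ extC F K C := Submodule.subset_span ⟨c, hc, rfl⟩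
  have h2 := inv_le (F := F) S T (hle h1) φ
  have h3 : (fun x => φ (algebraMap F K (c x))) = c := by
    funext x
    rw [Algebra.algebraMap_eq_smul_one, map_smul, hφ, smul_eq_mul, mul_one]
  rw [h3] at h2
  exact h2

end ext

theorem prime_cond {q p : ℕ} (hq : 2 ≤ q) (hp : p.Prime) (h : q + 1 < p) :
    ¬ p ∣ q ^ 2 * (q ^ 2 - 1) := by
  intro hd
  rcases (Nat.Prime.dvd_mul hp).1 hd with h1 | h1
  · have := Nat.le_of_dvd (by omega) (hp.dvd_of_dvd_pow h1)
    omega
  · have e : q ^ 2 - 1 = (q + 1) * (q - 1) := by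
      have := Nat.sq_sub_sq q 1
      rwa [one_pow] at this
    rw [e] at h1
    rcases (Nat.Prime.dvd_mul hp).1 h1 with h2 | h2
    · have := Nat.le_of_dvd (by omega) h2
      omega
    · have := Nat.le_of_dvd (by omega) h2
      omega

/-- TENF. -/
theorem t_tenf (h : S_TEN) : S_TENF := by
  intro F _ _ _ S Ω _ T a hS hfr C hC hn
  classical
  obtain ⟨n0, hl, hn0⟩ := FiniteField.card F (ringChar F)
  have : Fact (ringChar F).Prime := ⟨hl⟩
  obtain ⟨K, _, _, _, _, hcard⟩ : ∃ (K : Type) (_ : Field K) (_ : Fintype K) (_ : DecidableEq K)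
      (_ : Algebra F K), Fintype.card K = Fintype.card F ^ 2 := by
    obtain ⟨inst⟩ := nonempty_fintype (FiniteField.Extension F (ringChar F) 2)
    refine ⟨FiniteField.Extension F (ringChar F) 2, inferInstance, inst,
      Classical.decEq _, inferInstance, ?_⟩
    have h1 := FiniteField.natCard_extension F (ringChar F) 2
    rw [Nat.card_eq_fintype_card, Nat.card_eq_fintype_card] at h1
    exact h1
  have hq2 : 2 ≤ Fintype.card F := Fintype.one_lt_card
  obtain ⟨c, hc, hc0, hcw⟩ := h K S Ω T a (by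
    intro p hp
    rw [hcard]
    exact ⟨(hS p hp).1, prime_cond hq2 (hS p hp).1 (hS p hp).2⟩) hfr (extC F K C) (by
      rw [hcard]
      exact ⟨fun p hp b => extC_comp C _ (hC.1 p hp b), fun p hp => extC_comp C _ (hC.2 p hp)⟩)
    (not_le S T C hn)
  rw [hcard] at hcw
  obtain ⟨x0, hx0⟩ : ∃ x0, c x0 ≠ 0 := by
    by_contra h
    push Not at h
    exact hc0 (funext h)
  obtain ⟨φ, hφ⟩ : ∃ φ : K →ₗ[F] F, φ (c x0) ≠ 0 := by
    by_contra h
    push Not at h
    exact hx0 ((Module.forall_dual_apply_eq_zero_iff F (c x0)).1 h)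
  refine ⟨fun x => φ (c x), extC_le_dn C hc φ, ?_, ?_⟩
  · intro h
    exact hφ (congrFun h x0)
  · refine le_trans (Nat.mul_le_mul_left _ ?_) hcw
    unfold hammingNorm
    apply card_le_card
    intro x hx
    simp only [mem_filter, mem_univ, true_and] at hx ⊢
    intro h
    exact hx (by rw [h, map_zero])

end Pool.Agent.H404.TS144
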